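import Pool.Agent.H88.SlaterDef

namespace Pool.Agent.H88

/-- The 511 flips (coordinates numbered from 0). -/
def flips9 : List ℕ :=
  [5, 6, 5, 4, 5, 6, 7, 6, 5, 4, 5, 6, 5, 4, 3, 2, 3, 4, 5, 4, 3, 2, 1, 2, 3, 4, 5, 4, 3, 4, 5, 6, 5, 4, 3, 4, 5, 4, 3, 2,
   1, 2, 3, 4, 5, 4, 3, 2, 1, 0, 1, 2, 3, 4, 5, 4, 3, 2, 1, 2, 3, 4, 5, 4, 3, 4, 5, 6, 5, 4, 3, 4, 5, 4, 3, 2, 1, 2, 3, 4,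
   5, 4, 3, 4, 5, 6, 7, 6, 5, 6, 7, 8, 7, 6, 5, 6, 7, 6, 5, 4, 3, 4, 5, 4, 3, 2, 1, 2, 3, 4, 5, 4, 3, 4, 5, 6, 5, 4, 3, 4,
   5, 4, 3, 2, 1, 2, 3, 4, 5, 4, 3, 2, 1, 0, 1, 2, 3, 4, 5, 4, 3, 2, 1, 2, 3, 4, 5, 4, 3, 4, 5, 6, 5, 4, 3, 4, 5, 4, 3, 2,
   1, 2, 3, 4, 5, 4, 3, 2, 3, 4, 5, 6, 5, 4, 5, 6, 7, 6, 5, 4, 5, 6, 5, 4, 3, 4, 5, 6, 7, 6, 5, 6, 7, 8, 7, 6, 5, 6, 7, 6,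
   5, 4, 3, 2, 3, 4, 5, 6, 7, 6, 5, 6, 7, 8, 7, 6, 5, 6, 7, 6, 5, 4, 3, 4, 5, 4, 3, 2, 1, 0, 1, 2, 3, 4, 5, 4, 3, 2, 3, 4,
   5, 6, 5, 4, 5, 6, 7, 6, 5, 4, 5, 6, 5, 4, 3, 4, 5, 6, 7, 6, 5, 6, 7, 8, 7, 6, 5, 6, 7, 6, 5, 4, 3, 4, 5, 6, 5, 4, 5, 6,
   7, 6, 5, 4, 5, 6, 5, 4, 3, 2, 3, 4, 5, 4, 3, 2, 1, 0, 1, 2, 3, 4, 5, 6, 5, 4, 3, 2, 1, 0, 1, 2, 3, 4, 5, 4, 3, 2, 1, 2,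
   3, 4, 5, 4, 3, 4, 5, 6, 5, 4, 3, 4, 5, 4, 3, 2, 3, 4, 5, 6, 5, 4, 5, 6, 7, 6, 5, 4, 5, 6, 5, 4, 3, 4, 5, 6, 7, 6, 5, 6,
   7, 8, 7, 6, 5, 6, 7, 6, 5, 4, 3, 4, 5, 6, 5, 4, 5, 6, 7, 6, 5, 4, 5, 6, 5, 4, 3, 2, 3, 4, 5, 4, 3, 4, 5, 6, 5, 4, 3, 4,
   5, 4, 3, 2, 1, 2, 3, 4, 5, 4, 3, 2, 1, 0, 1, 2, 3, 4, 5, 4, 3, 2, 1, 2, 3, 4, 5, 4, 3, 4, 5, 6, 5, 4, 3, 4, 5, 4, 3, 2,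
   3, 4, 5, 6, 5, 4, 5, 6, 7, 6, 5, 4, 5, 6, 5, 4, 3, 4, 5, 6, 7, 6, 5, 6, 7, 8, 7, 6, 5, 6, 7, 6, 5, 4, 3, 4, 5, 6, 5, 4,
   5, 6, 7, 6, 5, 4, 5, 6, 5, 4, 3, 2, 3, 4, 5, 4, 3, 4, 5, 6, 5, 4, 3, 4, 5, 4, 3, 2, 1, 2, 3]

theorem nine_len : flips9.length + 1 = 2 ^ 9 := by decide +kernel

theorem nine_lt : ∀ s ∈ flips9, s < 9 := by decide +kernel

theorem nine_step : ∀ i, i + 1 < flips9.length →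
    flips9.getD (i + 1) 0 = flips9.getD i 0 + 1 ∨ flips9.getD i 0 = flips9.getD (i + 1) 0 + 1 := by
  have h : ∀ i, i < 510 →
    flips9.getD (i + 1) 0 = flips9.getD i 0 + 1 ∨ flips9.getD i 0 = flips9.getD (i + 1) 0 + 1 := by
    decide +kernel
  intro i hi
  have : flips9.length = 511 := by decide +kernel
  exact h i (by omega)

theorem nine_nodup : (verts 0 flips9).Nodup := by decide +kernel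

end Pool.Agent.H88
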