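import Mathlib

namespace Pool.Agent.H88

/-- `HasLocalHamPath n`: the hypercube `Q_n` (vertices `Fin n → Bool`) has a Hamiltonian path
`v 0, v 1, …, v (2^n - 1)` such that, `s i` being the coordinate in which `v i` and `v (i+1)` differ,
any two consecutive flipped coordinates differ by exactly one. -/
def HasLocalHamPath (n : ℕ) : Prop :=
  ∃ (v : Fin (2 ^ n) → (Fin n → Bool)) (s : ℕ → Fin n),
    Function.Bijective v ∧
    (∀ (i : ℕ) (h : i + 1 < 2 ^ n),
      v ⟨i + 1, h⟩ = Function.update (v ⟨i, Nat.lt_of_succ_lt h⟩) (s i)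
        (!(v ⟨i, Nat.lt_of_succ_lt h⟩ (s i)))) ∧
    (∀ i : ℕ, i + 2 < 2 ^ n →
      (s (i + 1) : ℕ) = (s i : ℕ) + 1 ∨ (s i : ℕ) = (s (i + 1) : ℕ) + 1)

/-- The vertices visited when the flips in `L` are applied from `a` on, as bit masks. -/
def verts : ℕ → List ℕ → List ℕ
  | a, [] => [a]
  | a, s :: L => a :: verts (a ^^^ (2 ^ s)) L

theorem verts_length (L : List ℕ) : ∀ a, (verts a L).length = L.length + 1 := by
  induction L with
  | nil => intro a; simp [verts]
  | cons s L ih => intro a; simp [verts, ih]

theorem verts_zero (L : List ℕ) (a : ℕ) : (verts a L)[0]? = some a := by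
  cases L <;> simp [verts]

theorem verts_succ (L : List ℕ) : ∀ (a i : ℕ) (h : i < L.length),
    ∃ x, (verts a L)[i]? = some x ∧ (verts a L)[i + 1]? = some (x ^^^ (2 ^ L[i])) := by
  induction L with
  | nil => intro a i h; simp at h
  | cons s L ih =>
    intro a i h
    cases i with
    | zero => exact ⟨a, by simp [verts], by simp [verts, verts_zero]⟩
    | succ i =>
      obtain ⟨x, h1, h2⟩ := ih (a ^^^ (2 ^ s)) i (by simpa using h)
      exact ⟨x, by simpa [verts] using h1, by simpa [verts] using h2⟩

theorem verts_lt (n : ℕ) (L : List ℕ) : ∀ a, a < 2 ^ n → (∀ s ∈ L, s < n) →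
    ∀ x ∈ verts a L, x < 2 ^ n := by
  induction L with
  | nil => intro a ha _ x hx; simp [verts] at hx; omega
  | cons s L ih =>
    intro a ha hs x hx
    simp only [verts, List.mem_cons] at hx
    rcases hx with rfl | hx
    · exact ha
    · refine ih _ ?_ (fun t ht => hs t (List.mem_cons_of_mem _ ht)) x hx
      exact Nat.xor_lt_two_pow ha (Nat.pow_lt_pow_right (by norm_num) (hs s (by simp)))

theorem hasLocal_of_list (n : ℕ) (L : List ℕ) (hlen : L.length + 1 = 2 ^ n) (hlt : ∀ s ∈ L, s < n)
    (hch : ∀ i, i + 1 < L.length →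
      L.getD (i + 1) 0 = L.getD i 0 + 1 ∨ L.getD i 0 = L.getD (i + 1) 0 + 1)
    (hn : 0 < n)
    (hnd : (verts 0 L).Nodup) : HasLocalHamPath n := by
  have hl : (verts 0 L).length = 2 ^ n := by rw [verts_length, hlen]
  set f : Fin (2 ^ n) → ℕ := fun i => (verts 0 L).getD i 0 with hf
  have hfget : ∀ i : Fin (2 ^ n), (verts 0 L)[(i : ℕ)]? = some (f i) := by
    intro i
    have : (i : ℕ) < (verts 0 L).length := by rw [hl]; exact i.2
    simp [hf, List.getD, this]
  have hflt : ∀ i, f i < 2 ^ n := by
    intro i
    apply verts_lt n L 0 (by positivity) hlt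
    exact List.mem_of_getElem? (hfget i)
  have hfinj : Function.Injective f := by
    intro i j hij
    have hi := hfget i
    have hj := hfget j
    rw [hij] at hi
    have := (List.nodup_iff_injective_getElem.mp hnd)
    have hi' : (i : ℕ) < (verts 0 L).length := by rw [hl]; exact i.2
    have hj' : (j : ℕ) < (verts 0 L).length := by rw [hl]; exact j.2
    have e : (⟨i, hi'⟩ : Fin (verts 0 L).length) = ⟨j, hj'⟩ := by
      apply this
      simp only
      rw [List.getElem?_eq_getElem hi'] at hi
      rw [List.getElem?_eq_getElem hj'] at hj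
      simp only [Option.some.injEq] at hi hj
      rw [hi, hj]
    exact Fin.ext (by simpa using congrArg Fin.val e)
  let s : ℕ → Fin n := fun i => if h : i < L.length then ⟨L[i], hlt _ (List.getElem_mem h)⟩ else ⟨0, hn⟩
  let v : Fin (2 ^ n) → (Fin n → Bool) := fun i j => (f i).testBit j
  refine ⟨v, s, ?_, ?_, ?_⟩
  · rw [Fintype.bijective_iff_injective_and_card]
    refine ⟨?_, by simp⟩
    intro i j hij
    apply hfinj
    apply Nat.eq_of_testBit_eq
    intro k
    by_cases hk : k < n
    · exact congrFun hij ⟨k, hk⟩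
    · rw [Nat.testBit_lt_two_pow, Nat.testBit_lt_two_pow]
      · exact lt_of_lt_of_le (hflt j) (Nat.pow_le_pow_right (by norm_num) (by omega))
      · exact lt_of_lt_of_le (hflt i) (Nat.pow_le_pow_right (by norm_num) (by omega))
  · intro i h
    have hi : i < L.length := by omega
    obtain ⟨x, h1, h2⟩ := verts_succ L 0 i hi
    have e1 := hfget ⟨i, Nat.lt_of_succ_lt h⟩
    have e2 := hfget ⟨i + 1, h⟩
    simp only at e1 e2
    rw [h1] at e1
    rw [h2] at e2
    simp only [Option.some.injEq] at e1 e2
    funext j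
    by_cases hj : j = s i
    · subst hj
      simp only [v, Function.update_self]
      rw [← e2, ← e1, Nat.testBit_xor, Nat.testBit_two_pow]
      simp [s, hi]
    · rw [Function.update_of_ne hj]
      simp only [v]
      rw [← e2, ← e1, Nat.testBit_xor, Nat.testBit_two_pow]
      have : ¬ (L[i] = (j : ℕ)) := by
        intro hh
        apply hj
        apply Fin.ext
        simp [s, hi, hh]
      simp [this]
  · intro i h
    have hi : i + 1 < L.length := by omega
    have := hch i hi
    have hi0 : i < L.length := by omega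
    simp only [s, hi, hi0, dif_pos]
    simpa [List.getD, hi, hi0] using this

end Pool.Agent.H88
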